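import Pool.Agent.H113Z.Dist.Defs

/-! The time `a n` map of the flow of `1 + a z` lies in the asymptotic class `Fcl`. -/

namespace Pool.Agent.H113Z.Dist
open Filter Topology Set Asymptotics

namespace H704Flow

theorem op_mono {f : ℝ → ℝ} {r s : ℝ} (h : OP f r) (hrs : r ≤ s) : OP f s := by
  refine IsBigO.trans h (IsBigO.of_bound 1 ?_)
  filter_upwards [eventually_ge_atTop (1 : ℝ)] with y hy
  rw [one_mul, Real.norm_of_nonneg (Real.rpow_nonneg (by linarith) _),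
    Real.norm_of_nonneg (Real.rpow_nonneg (by linarith) _)]
  exact Real.rpow_le_rpow_of_exponent_le hy hrs

theorem op_mul {f g : ℝ → ℝ} {r s t : ℝ} (hf : OP f r) (hg : OP g s) (h : r + s ≤ t) :
    OP (fun y => f y * g y) t := by
  refine op_mono (r := r + s) ?_ h
  refine (IsBigO.mul hf hg).trans (IsBigO.of_bound 1 ?_)
  filter_upwards [eventually_gt_atTop (0 : ℝ)] with y hy
  rw [one_mul, Real.rpow_add hy]

theorem op_add {f g : ℝ → ℝ} {r : ℝ} (hf : OP f r) (hg : OP g r) :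
    OP (fun y => f y + g y) r := IsBigO.add hf hg

theorem op_sub {f g : ℝ → ℝ} {r : ℝ} (hf : OP f r) (hg : OP g r) :
    OP (fun y => f y - g y) r := IsBigO.sub hf hg

theorem op_cmul {f : ℝ → ℝ} {r : ℝ} (c : ℝ) (hf : OP f r) : OP (fun y => c * f y) r :=
  IsBigO.const_mul_left hf c

theorem op_bdd {f : ℝ → ℝ} (M : ℝ) (h : ∀ y, |f y| ≤ M) : OP f 0 := by
  refine IsBigO.of_bound M (Eventually.of_forall fun y => ?_)
  simpa using h y

theorem op_congr {f g : ℝ → ℝ} {r : ℝ} (hf : OP f r) (h : ∀ y, g y = f y) : OP g r := by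
  have : g = f := funext h
  rwa [this]

theorem op_comp {f θ : ℝ → ℝ} {r M : ℝ} (hf : OP f r) (hθ : ∀ y, |θ y - y| ≤ M) :
    OP (fun y => f (θ y)) r := by
  have h1 : Tendsto θ atTop atTop := by
    refine tendsto_atTop_mono (f := fun y => y + -M) (fun y => ?_)
      (tendsto_atTop_add_const_right _ _ tendsto_id)
    have := (abs_le.1 (hθ y)).1
    linarith
  have h2 : Tendsto (fun y => (θ y - y) / y) atTop (𝓝 0) := by
    refine squeeze_zero_norm' (a := fun y => M / y) ?_ (tendsto_const_nhds.div_atTop tendsto_id)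
    filter_upwards [eventually_gt_atTop (0 : ℝ)] with y hy
    rw [norm_div, Real.norm_of_nonneg hy.le]
    exact div_le_div_of_nonneg_right (hθ y) hy.le
  have h3 : Tendsto (fun y => θ y / y) atTop (𝓝 1) := by
    have := h2.add_const 1
    rw [zero_add] at this
    refine this.congr' ?_
    filter_upwards [eventually_gt_atTop (0 : ℝ)] with y hy
    field_simp
    ring
  have h4 : Tendsto (fun y => (θ y / y) ^ r) atTop (𝓝 1) := by
    have := h3.rpow_const (p := r) (Or.inl one_ne_zero)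
    rwa [Real.one_rpow] at this
  have h5 : (fun y => (θ y / y) ^ r * y ^ r) =O[atTop] fun y : ℝ => y ^ r := by
    have := (h4.isBigO_one ℝ).mul (isBigO_refl (fun y : ℝ => y ^ r) atTop)
    simpa using this
  refine (IsBigO.comp_tendsto hf h1).trans (h5.congr' ?_ EventuallyEq.rfl)
  filter_upwards [eventually_gt_atTop (0 : ℝ), h1.eventually (eventually_gt_atTop (0 : ℝ))]
    with y hy hy'
  show (θ y / y) ^ r * y ^ r = θ y ^ r
  rw [← Real.mul_rpow (div_pos hy' hy).le hy.le, div_mul_cancel₀ _ hy.ne']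

theorem mvt {f g : ℝ → ℝ} (h : ∀ x, HasDerivAt f (g x) x) (y y' : ℝ) :
    ∃ ξ, |ξ - y| ≤ |y' - y| ∧ f y' - f y = g ξ * (y' - y) := by
  have hc : Continuous f := continuous_iff_continuousAt.2 fun x => (h x).continuousAt
  rcases lt_trichotomy y y' with hl | rfl | hl
  · obtain ⟨ξ, hξ, e⟩ := exists_hasDerivAt_eq_slope f g hl hc.continuousOn fun x _ => h x
    refine ⟨ξ, ?_, ?_⟩
    · rw [abs_of_pos (sub_pos.2 hξ.1), abs_of_pos (sub_pos.2 hl)]
      linarith [hξ.2]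
    · rw [e, div_mul_cancel₀ _ (sub_pos.2 hl).ne']
  · exact ⟨y, le_rfl, by simp⟩
  · obtain ⟨ξ, hξ, e⟩ := exists_hasDerivAt_eq_slope f g hl hc.continuousOn fun x _ => h x
    refine ⟨ξ, ?_, ?_⟩
    · rw [abs_of_neg (sub_neg.2 hξ.2), abs_of_neg (sub_neg.2 hl)]
      linarith [hξ.1]
    · have : y - y' ≠ 0 := (sub_pos.2 hl).ne'
      rw [e]
      field_simp
      ring

theorem mvt' {f g θ : ℝ → ℝ} {M : ℝ} (h : ∀ x, HasDerivAt f (g x) x)
    (hθ : ∀ y, |θ y - y| ≤ M) :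
    ∃ ξ : ℝ → ℝ, (∀ y, |ξ y - y| ≤ M) ∧ ∀ y, f (θ y) - f y = g (ξ y) * (θ y - y) := by
  choose ξ h1 h2 using fun y => mvt h y (θ y)
  exact ⟨ξ, fun y => (h1 y).trans (hθ y), h2⟩

theorem op_diff {f g θ : ℝ → ℝ} {M r : ℝ} (h : ∀ x, HasDerivAt f (g x) x) (hg : OP g r)
    (hθ : ∀ y, |θ y - y| ≤ M) : OP (fun y => f (θ y) - f y) r := by
  obtain ⟨ξ, h1, h2⟩ := mvt' h hθ
  exact op_congr (op_mul (op_comp hg h1) (op_bdd M hθ) (by simp)) h2

theorem hasD {z : ℝ → ℝ} (hz : ContDiff ℝ 6 z) (k : ℕ) (hk : k < 6) (x : ℝ) :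
    HasDerivAt (D k z) (D (k + 1) z x) x := by
  have := hz.differentiable_iteratedDeriv k (by exact_mod_cast hk)
  show HasDerivAt (iteratedDeriv k z) (iteratedDeriv (k + 1) z x) x
  rw [iteratedDeriv_succ]
  exact (this x).hasDerivAt

theorem D_succ {f F F' : ℝ → ℝ} (k : ℕ) (h : D k f = F) (h' : ∀ x, HasDerivAt F (F' x) x) :
    D (k + 1) f = F' := by
  show iteratedDeriv (k + 1) f = F'
  rw [iteratedDeriv_succ]
  funext x
  rw [show iteratedDeriv k f = F from h]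
  exact (h' x).deriv

end H704Flow

open H704Flow

theorem flow (hT : ToolStmt) : FlowStmt := by
  intro a z φ n ha hz hz2 hZ hφ hφd
  obtain ⟨t1, t2, -, t4, -⟩ := hT
  obtain ⟨o0, o1, o2, o3, -, -⟩ := hZ
  have hG : Good (φ⁻¹ * tr (a * n) * φ) := t1 _ _ (t1 _ _ (t2 _ hφ) (t4 _).1) hφ
  have hφG : ∀ y, φ ((φ⁻¹ * tr (a * n) * φ) y) = φ y + a * n := fun y => by simp
  generalize φ⁻¹ * tr (a * n) * φ = G at hG hφG ⊢
  have ha1 : |a| = 1 := by rcases ha with rfl | rfl <;> simp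
  have haa : a * a = 1 := by rcases ha with rfl | rfl <;> simp
  have haz : ∀ x, |a * z x| ≤ 1 / 2 := fun x => by rw [abs_mul, ha1, one_mul]; exact hz2 x
  have hX : ∀ x, 1 / 2 ≤ 1 + a * z x := fun x => by linarith [(abs_le.1 (haz x)).1]
  have hX0 : ∀ x, 1 + a * z x ≠ 0 := fun x => by linarith [hX x]
  have d0 : ∀ x, HasDerivAt z (deriv z x) x := fun x => by
    simpa using hasD hz 0 (by norm_num) x
  have d1 : ∀ x, HasDerivAt (deriv z) (D 2 z x) x := fun x => by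
    simpa using hasD hz 1 (by norm_num) x
  have d2 : ∀ x, HasDerivAt (D 2 z) (D 3 z x) x := fun x => hasD hz 2 (by norm_num) x
  generalize deriv z = z1 at o1 d0 d1
  generalize D 3 z = z3 at o3 d2
  generalize D 2 z = z2 at o2 d1 d2 ⊢
  -- displacement
  choose ξ0 hξ0 eξ0 using fun y => mvt hφd y (G y)
  have eδ : ∀ y, G y - y = a * n + n * z (ξ0 y) := fun y => by
    have h := eξ0 y
    rw [hφG, add_sub_cancel_left, one_div, eq_inv_mul_iff_mul_eq₀ (hX0 _)] at h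
    rw [← h]
    linear_combination (n * z (ξ0 y)) * haa
  have hδ : ∀ y, |G y - y| ≤ 2 * n := fun y => by
    rw [eδ]
    have h1 : |a * n| = n := by rw [abs_mul, ha1, one_mul, Nat.abs_cast]
    have h2 : |n * z (ξ0 y)| ≤ n * (1 / 2) := by
      rw [abs_mul, Nat.abs_cast]
      exact mul_le_mul_of_nonneg_left (hz2 _) (Nat.cast_nonneg n)
    have h3 := abs_add_le (a * n) (n * z (ξ0 y))
    have h4 : (0 : ℝ) ≤ n := Nat.cast_nonneg n
    linarith
  have oδ : OP (fun y => G y - y - a * n) (-1) :=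
    op_congr (op_cmul n (op_comp o0 fun y => (hξ0 y).trans (hδ y))) fun y => by
      rw [eδ]; ring
  -- the functions
  obtain ⟨w, hw⟩ : ∃ w : ℝ → ℝ, w = fun x => 1 / (1 + a * z x) := ⟨_, rfl⟩
  have hwX : ∀ x, (1 + a * z x) * w x = 1 := fun x => by
    rw [hw]; exact mul_one_div_cancel (hX0 x)
  obtain ⟨w1, hw1⟩ : ∃ w1 : ℝ → ℝ, w1 = fun x => -a * (z1 x * (w x * w x)) := ⟨_, rfl⟩
  obtain ⟨w2, hw2⟩ : ∃ w2 : ℝ → ℝ,
    w2 = fun x => -a * (z2 x * (w x * w x) + z1 x * (w1 x * w x + w x * w1 x)) := ⟨_, rfl⟩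
  have dw : ∀ x, HasDerivAt w (w1 x) x := fun x => by
    have h := (hasDerivAt_const x (1 : ℝ)).div (((d0 x).const_mul a).const_add 1) (hX0 x)
    have e : w1 x = (0 * (1 + a * z x) - 1 * (a * z1 x)) / (1 + a * z x) ^ 2 := by
      rw [hw1, hw]
      have := hX0 x
      field_simp
      ring
    rw [e, hw]
    exact h
  have dw1 : ∀ x, HasDerivAt w1 (w2 x) x := fun x => by
    have := ((d1 x).mul ((dw x).mul (dw x))).const_mul (-a)
    rw [hw2]
    conv => enter [1]; rw [hw1]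
    exact this
  obtain ⟨G1, hG1⟩ : ∃ G1 : ℝ → ℝ, G1 = fun y => (1 + a * z (G y)) * w y := ⟨_, rfl⟩
  have dG : ∀ y, HasDerivAt G (G1 y) y := fun y => by
    have h0 : HasDerivAt G (deriv G y) y :=
      (hG.1.differentiable (by norm_num) y).hasDerivAt
    have h1 := (hφd (G y)).comp y h0
    have h2 : HasDerivAt (φ ∘ G) (1 / (1 + a * z y)) y := by
      have : (φ ∘ G : ℝ → ℝ) = fun y => φ y + a * n := funext hφG
      rw [this]
      exact (hφd y).add_const _
    have h3 := h1.unique h2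
    have : deriv G y = G1 y := by
      rw [hG1, hw]
      show _ = (1 + a * z (G y)) * (1 / (1 + a * z y))
      rw [← h3, ← mul_assoc, mul_one_div_cancel (hX0 _), one_mul]
    rwa [this] at h0
  obtain ⟨A1, hA1⟩ : ∃ A : ℝ → ℝ, A = fun y => a * (z1 (G y) - z1 y) := ⟨_, rfl⟩
  obtain ⟨A2, hA2⟩ : ∃ A : ℝ → ℝ, A = fun y => a * (z2 (G y) * G1 y - z2 y) := ⟨_, rfl⟩
  obtain ⟨G2, hG2⟩ : ∃ A : ℝ → ℝ, A = fun y => G1 y * (A1 y * w y) := ⟨_, rfl⟩
  obtain ⟨A3, hA3⟩ : ∃ A : ℝ → ℝ,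
    A = fun y => a * (z3 (G y) * G1 y * G1 y + z2 (G y) * G2 y - z3 y) := ⟨_, rfl⟩
  obtain ⟨B1, hB1⟩ : ∃ A : ℝ → ℝ, A = fun y => A2 y * w y + A1 y * w1 y := ⟨_, rfl⟩
  obtain ⟨B2, hB2⟩ : ∃ A : ℝ → ℝ,
    A = fun y => (A3 y * w y + A2 y * w1 y) + (A2 y * w1 y + A1 y * w2 y) := ⟨_, rfl⟩
  obtain ⟨G3, hG3⟩ : ∃ A : ℝ → ℝ, A = fun y => G2 y * (A1 y * w y) + G1 y * B1 y := ⟨_, rfl⟩
  obtain ⟨G4, hG4⟩ : ∃ A : ℝ → ℝ,
    A = fun y => (G3 y * (A1 y * w y) + G2 y * B1 y) + (G2 y * B1 y + G1 y * B2 y) := ⟨_, rfl⟩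
  have dG1 : ∀ y, HasDerivAt G1 (G2 y) y := fun y => by
    have h := ((((d0 (G y)).comp y (dG y)).const_mul a).const_add 1).mul (dw y)
    have e : G2 y = a * (z1 (G y) * G1 y) * w y + (1 + a * z (G y)) * w1 y := by
      rw [hG2, hA1, hw1, hG1]
      ring
    rw [e]
    conv => enter [1]; rw [hG1]
    exact h
  have dA1 : ∀ y, HasDerivAt A1 (A2 y) y := fun y => by
    have := (((d1 (G y)).comp y (dG y)).sub (d1 y)).const_mul a
    rw [hA1, hA2]
    exact this
  have dA2 : ∀ y, HasDerivAt A2 (A3 y) y := fun y => by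
    have := ((((d2 (G y)).comp y (dG y)).mul (dG1 y)).sub (d2 y)).const_mul a
    rw [hA2, hA3]
    exact this
  have dB0 : ∀ y, HasDerivAt (fun y => A1 y * w y) (B1 y) y := fun y => by
    rw [hB1]; exact (dA1 y).mul (dw y)
  have dB1 : ∀ y, HasDerivAt B1 (B2 y) y := fun y => by
    rw [hB1, hB2]; exact ((dA2 y).mul (dw y)).add ((dA1 y).mul (dw1 y))
  have dG2 : ∀ y, HasDerivAt G2 (G3 y) y := fun y => by
    have := (dG1 y).mul (dB0 y)
    rw [hG3]
    conv => enter [1]; rw [hG2]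
    exact this
  have dG3 : ∀ y, HasDerivAt G3 (G4 y) y := fun y => by
    have := ((dG2 y).mul (dB0 y)).add ((dG1 y).mul (dB1 y))
    rw [hG4]
    conv => enter [1]; rw [hG3]
    exact this
  have e1 : D 1 G = G1 := D_succ 0 (by simp) dG
  have e1' : deriv G = G1 := by rw [← e1]; simp
  have e2 : D 2 G = G2 := D_succ 1 e1 dG1
  have e3 : D 3 G = G3 := D_succ 2 e2 dG2
  have e4 : D 4 G = G4 := D_succ 3 e3 dG3
  -- orders
  have ow : OP w 0 := op_bdd 2 fun x => by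
    rw [hw]
    show |1 / (1 + a * z x)| ≤ 2
    rw [abs_of_pos (one_div_pos.2 (by linarith [hX x])),
      div_le_iff₀ (by linarith [hX x])]
    linarith [hX x]
  have oww : OP (fun x => w x * w x) 0 := op_mul ow ow (by norm_num)
  have ow' : OP (fun x => w x - 1) (-1) :=
    op_congr (op_cmul (-a) (op_mul o0 ow (by norm_num))) fun x => by
      linear_combination hwX x
  have ow1 : OP w1 (-2) := by
    rw [hw1]; exact op_cmul _ (op_mul o1 oww (by norm_num))
  have ow2 : OP w2 (-2) := by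
    rw [hw2]
    exact op_cmul _ (op_add (op_mul o2 oww (by norm_num)) (op_mul o1
      (op_add (op_mul ow1 ow (t := -2) (by norm_num)) (op_mul ow ow1 (by norm_num)))
      (by norm_num)))
  have oG1' : OP (fun y => G1 y - 1) (-2) :=
    op_congr (op_cmul a (op_mul (op_diff d0 o1 hδ) ow (by norm_num))) fun y => by
      rw [hG1]
      linear_combination hwX y
  have oG1 : OP G1 0 :=
    op_congr (op_add (op_mono oG1' (by norm_num)) (op_bdd (f := fun _ => 1) 1 (by simp)))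
      fun y => by ring
  have oA1 : OP A1 (-29 / 10) := by
    rw [hA1]; exact op_cmul _ (op_diff d1 o2 hδ)
  have oB0 : OP (fun y => A1 y * w y) (-29 / 10) := op_mul oA1 ow (by norm_num)
  have oG2 : OP G2 (-29 / 10) := by
    rw [hG2]; exact op_mul oG1 oB0 (by norm_num)
  have oA2 : OP A2 (-29 / 10) := by
    rw [hA2]; exact op_cmul _ (op_sub (op_mul (op_comp o2 hδ) oG1 (by norm_num)) o2)
  have oA3 : OP A3 (-39 / 10) := by
    rw [hA3]
    exact op_cmul _ (op_sub (op_add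
      (op_mul (op_mul (op_comp o3 hδ) oG1 (t := -39 / 10) (by norm_num)) oG1 (by norm_num))
      (op_mul (op_comp o2 hδ) oG2 (by norm_num))) o3)
  have oB1 : OP B1 (-29 / 10) := by
    rw [hB1]; exact op_add (op_mul oA2 ow (by norm_num)) (op_mul oA1 ow1 (by norm_num))
  have oB2 : OP B2 (-39 / 10) := by
    rw [hB2]
    exact op_add (op_add (op_mul oA3 ow (by norm_num)) (op_mul oA2 ow1 (by norm_num)))
      (op_add (op_mul oA2 ow1 (by norm_num)) (op_mul oA1 ow2 (by norm_num)))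
  have oG3 : OP G3 (-29 / 10) := by
    rw [hG3]; exact op_add (op_mul oG2 oB0 (by norm_num)) (op_mul oG1 oB1 (by norm_num))
  have oG4 : OP G4 (-39 / 10) := by
    rw [hG4]
    exact op_add (op_add (op_mul oG3 oB0 (by norm_num)) (op_mul oG2 oB1 (by norm_num)))
      (op_add (op_mul oG2 oB1 (by norm_num)) (op_mul oG1 oB2 (by norm_num)))
  obtain ⟨ξ1, hξ1, eξ1⟩ := mvt' d1 hδ
  have oA1' : OP (fun y => A1 y - n * z2 y) (-19 / 5) :=
    op_congr (op_add (op_cmul a (op_mul (op_comp o2 hξ1) oδ (by norm_num)))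
      (op_cmul n (op_mono (op_diff d2 o3 hξ1) (by norm_num)))) fun y => by
      rw [hA1]
      show a * (z1 (G y) - z1 y) - _ = _
      rw [eξ1]
      linear_combination (n * z2 (ξ1 y)) * haa
  have oF : OP (fun y => G2 y - n * z2 y) (-19 / 5) :=
    op_congr (op_add (op_add (op_mul oG1' oB0 (by norm_num)) (op_mul oA1 ow' (by norm_num)))
      oA1') fun y => by
      rw [hG2]
      ring
  refine ⟨⟨hG, ⟨_, hδ⟩, ?_, ?_, ?_, ?_⟩, oδ, op_cmul _ o2, ?_⟩
  · rw [e1']; exact oG1'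
  · rw [e2]; exact op_mono oG2 (by norm_num)
  · rw [e3]; exact op_mono oG3 (by norm_num)
  · rw [e4]; exact op_mono oG4 (by norm_num)
  · rw [e2]; exact oF

end Pool.Agent.H113Z.Dist
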